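import Pool.Agent.H91.ZSFin

set_option autoImplicit false

/-!
# MP_94c9ac_al, Q2: product-one subsequences in index order of weight at most one

For every finite group `G` of order `n`, every sequence of `n` elements of `G` has a nonempty
subsequence whose product in index order is the identity and whose weight, the sum of the
reciprocals of the orders of its terms, is at most `1`.

Proof.  Suppose that `g_1, …, g_m` (orders `ℓ_k ≤ N`) has no such subsequence, put `D = N!`,
`w_k = D / ℓ_k`, and let `R` be the set of the non-identity products in index order of weight at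
most `1 - 1/N`.  Let `P_x` be the coefficient at `x` of `∏ (1 - X_k ^ w_k g_k)`, a polynomial in
`m` variables without constant term for `x ≠ 1`.  If `|R| < m`, the polynomials `P_x`, `x ∈ R`,
have, by Krull's height theorem, a common zero `y` different from the origin with coordinates in
the maximal ideal of a valuation ring of some field.  Let `γ < 1` be the largest valuation of a
coordinate, attained at `k`, `c_i = y_i ^ w_i` and `M = ∏ (1 - c_i g_i) = L (1 - c_k g_k) Q`.
Then `M⁻¹ L c_k g_k Q` is conjugate to `(1 - c_k g_k)⁻¹ c_k g_k`, whose coefficient at `1` has
valuation `γ ^ D`; but `M` is so close to `1` that this coefficient has valuation at most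
`γ ^ (D + 1)`.  Hence `m ≤ |R| < n` (`Pool.Agent.H91.ZS.card_le`).
-/

namespace Pool.Agent.Results.MP_94c9ac_al.IndexOrderAllGroups

/-- **Every sequence of `|G|` elements of a finite group `G` has a nonempty subsequence with
product `1` in index order and weight at most `1`.** -/
theorem result (G : Type*) [Group G] [Finite G] (g : Fin (Nat.card G) → G) :
    ∃ K : Finset (Fin (Nat.card G)), K.Nonempty ∧ ((K.sort (· ≤ ·)).map g).prod = 1 ∧
      ∑ k ∈ K, (1 : ℚ) / (orderOf (g k) : ℚ) ≤ 1 := by
  classical
  by_contra hcon
  push Not at hcon
  have := Fintype.ofFinite G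
  have h := Pool.Agent.H91.ZS.card_le (Nat.card G) (Nat.card G) g (fun k => orderOf_pos _)
    (fun k => Nat.le_of_dvd Nat.card_pos (orderOf_dvd_natCard _)) hcon
    (Finset.univ.erase (1 : G)) (by simp) (fun K hK _ => by simpa using hK)
  rw [Finset.card_erase_of_mem (Finset.mem_univ _), Finset.card_univ,
    ← Nat.card_eq_fintype_card] at h
  have := Nat.card_pos (α := G)
  omega

end Pool.Agent.Results.MP_94c9ac_al.IndexOrderAllGroups
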